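import Mathlib

set_option autoImplicit false

namespace Pool.Agent.Results.MP_fa5fea_an.FivePoints

open Matrix Kronecker Complex

/-- Irreducible Hermitian representations of the Clifford relations. -/
structure IsIrredCliffordRep {d k : ℕ} (γ : Fin d → Matrix (Fin k) (Fin k) ℂ) : Prop where
  pos : 0 < k
  herm : ∀ j, (γ j).IsHermitian
  rel : ∀ j l, γ j * γ l + γ l * γ j = if j = l then (2 : ℂ) • 1 else 0
  irred : ∀ W : Submodule ℂ (Fin k → ℂ), (∀ j, ∀ w ∈ W, (γ j) *ᵥ w ∈ W) → W = ⊥ ∨ W = ⊤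

/-- The spectral localizer `∑ j, (A j - lam j) ⊗ γ j`. -/
def localizer {n d k : ℕ} (γ : Fin d → Matrix (Fin k) (Fin k) ℂ)
    (A : Fin d → Matrix (Fin n) (Fin n) ℂ) (lam : Fin d → ℝ) :
    Matrix (Fin n × Fin k) (Fin n × Fin k) ℂ :=
  ∑ j, (A j - (lam j : ℂ) • (1 : Matrix (Fin n) (Fin n) ℂ)) ⊗ₖ γ j

/-- The Clifford spectrum: the points at which the spectral localizer is not invertible. -/
def cliffordSpectrum {n d k : ℕ} (γ : Fin d → Matrix (Fin k) (Fin k) ℂ)
    (A : Fin d → Matrix (Fin n) (Fin n) ℂ) : Set (Fin d → ℝ) :=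
  {lam | ¬ IsUnit (localizer γ A lam)}

/-- The Pauli matrices. -/
def pauli : Fin 3 → Matrix (Fin 2) (Fin 2) ℂ :=
  ![!![0, 1; 1, 0], !![0, -I; I, 0], !![1, 0; 0, -1]]

/-- Three real symmetric matrices. -/
def A₀ : Fin 3 → Matrix (Fin 3) (Fin 3) ℂ :=
  ![!![0, 0, 0; 0, 0, 1; 0, 1, 0], !![0, 0, 1; 0, 0, 0; 1, 0, 0], !![0, 1, 0; 1, 0, 0; 0, 0, 0]]

theorem pauli_irred : IsIrredCliffordRep pauli where
  pos := by norm_num
  herm := by
    intro j
    fin_cases j
    all_goals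
      ext a b
      fin_cases a <;> fin_cases b <;> simp [pauli, Matrix.conjTranspose]
  rel := by
    intro j l
    fin_cases j <;> fin_cases l
    all_goals
      ext a b
      fin_cases a <;> fin_cases b <;>
        simp [pauli, Matrix.mul_apply, Fin.sum_univ_two] <;> norm_num
  irred := by
    intro W hW
    by_cases hbot : W = ⊥
    · exact Or.inl hbot
    right
    obtain ⟨w, hw, hw0⟩ := Submodule.exists_mem_ne_zero_of_ne_bot hbot
    have h3 : (pauli 2) *ᵥ w = ![w 0, -w 1] := by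
      ext i; fin_cases i <;> simp [pauli, Matrix.mulVec, dotProduct, Fin.sum_univ_two]
    have h1 : ∀ v : Fin 2 → ℂ, (pauli 0) *ᵥ v = ![v 1, v 0] := by
      intro v
      ext i; fin_cases i <;> simp [pauli, Matrix.mulVec, dotProduct, Fin.sum_univ_two]
    have hmem3 : (![w 0, -w 1] : Fin 2 → ℂ) ∈ W := h3 ▸ hW 2 w hw
    have ha : (![w 0, 0] : Fin 2 → ℂ) ∈ W := by
      have : (![w 0, 0] : Fin 2 → ℂ) = (1 / 2 : ℂ) • (w + ![w 0, -w 1]) := by
        ext i; fin_cases i
        · show w 0 = (1 / 2 : ℂ) * (w 0 + w 0)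
          ring
        · show (0 : ℂ) = (1 / 2 : ℂ) * (w 1 + -w 1)
          ring
      rw [this]; exact W.smul_mem _ (W.add_mem hw hmem3)
    have hb : (![0, w 1] : Fin 2 → ℂ) ∈ W := by
      have : (![0, w 1] : Fin 2 → ℂ) = (1 / 2 : ℂ) • (w - ![w 0, -w 1]) := by
        ext i; fin_cases i
        · show (0 : ℂ) = (1 / 2 : ℂ) * (w 0 - w 0)
          ring
        · show w 1 = (1 / 2 : ℂ) * (w 1 - -w 1)
          ring
      rw [this]; exact W.smul_mem _ (W.sub_mem hw hmem3)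
    have ha' : (![0, w 0] : Fin 2 → ℂ) ∈ W := by
      have := hW 0 _ ha
      rw [h1] at this
      simpa using this
    have hb' : (![w 1, 0] : Fin 2 → ℂ) ∈ W := by
      have := hW 0 _ hb
      rw [h1] at this
      simpa using this
    obtain ⟨c, hc, hc0, hc1⟩ : ∃ c : ℂ, c ≠ 0 ∧ (![c, 0] : Fin 2 → ℂ) ∈ W ∧
        (![0, c] : Fin 2 → ℂ) ∈ W := by
      by_cases h0 : w 0 = 0
      · have h10 : w 1 ≠ 0 := by
          intro h10; apply hw0; ext i; fin_cases i
          · exact h0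
          · exact h10
        exact ⟨w 1, h10, hb', hb⟩
      · exact ⟨w 0, h0, ha, ha'⟩
    rw [eq_top_iff]
    intro v _
    have : v = (v 0 / c) • (![c, 0] : Fin 2 → ℂ) + (v 1 / c) • (![0, c] : Fin 2 → ℂ) := by
      ext i; fin_cases i <;> simp [hc]
    rw [this]
    exact W.add_mem (W.smul_mem _ hc0) (W.smul_mem _ hc1)

theorem A₀_herm : ∀ j, (A₀ j).IsHermitian := by
  intro j
  fin_cases j
  all_goals
    ext a b
    fin_cases a <;> fin_cases b <;> simp [A₀, Matrix.conjTranspose]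

theorem det6 (x y z : ℂ) (I : ℂ) (hI : I ^ 2 = -1) :
    (!![-z, -x + I*y, 1, 0, 0, -I;
        -x - I*y, z, 0, -1, I, 0;
        1, 0, -z, -x + I*y, 0, 1;
        0, -1, -x - I*y, z, 1, 0;
        0, -I, 0, 1, -z, -x+I*y;
        I, 0, 1, 0, -x - I*y, z] : Matrix (Fin 6) (Fin 6) ℂ).det =
    -((x^2+y^2+z^2) * (1 + x^2+y^2+z^2)^2 - 16*x*y*z) := by
  simp [Matrix.det_succ_row_zero, Fin.sum_univ_succ, Fin.succAbove]
  have h3 : I^3 = -I := by linear_combination I*hI
  have h4 : I^4 = 1 := by linear_combination (I^2-1)*hI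
  have h5 : I^5 = I := by linear_combination (I^3-I)*hI
  have h6 : I^6 = -1 := by linear_combination (I^4-I^2+1)*hI
  ring_nf
  simp only [hI, h3, h4, h5, h6]
  ring

theorem det_localizer (lam : Fin 3 → ℝ) :
    (localizer pauli A₀ lam).det =
      ((-(((lam 0)^2+(lam 1)^2+(lam 2)^2) * (1 + (lam 0)^2+(lam 1)^2+(lam 2)^2)^2 -
        16*(lam 0)*(lam 1)*(lam 2)) : ℝ) : ℂ) := by
  rw [← Matrix.det_submatrix_equiv_self (finProdFinEquiv (m := 3) (n := 2)).symm]
  have hL : (localizer pauli A₀ lam).submatrix (finProdFinEquiv (m := 3) (n := 2)).symm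
      (finProdFinEquiv (m := 3) (n := 2)).symm =
      !![-(lam 2 : ℂ), -(lam 0 : ℂ) + I*(lam 1 : ℂ), 1, 0, 0, -I;
        -(lam 0 : ℂ) - I*(lam 1 : ℂ), (lam 2 : ℂ), 0, -1, I, 0;
        1, 0, -(lam 2 : ℂ), -(lam 0 : ℂ) + I*(lam 1 : ℂ), 0, 1;
        0, -1, -(lam 0 : ℂ) - I*(lam 1 : ℂ), (lam 2 : ℂ), 1, 0;
        0, -I, 0, 1, -(lam 2 : ℂ), -(lam 0 : ℂ)+I*(lam 1 : ℂ);
        I, 0, 1, 0, -(lam 0 : ℂ) - I*(lam 1 : ℂ), (lam 2 : ℂ)] := by
    ext a b
    fin_cases a <;> fin_cases b <;>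
      simp [localizer, pauli, A₀, Fin.sum_univ_three, finProdFinEquiv, Fin.divNat, Fin.modNat,
        Matrix.one_apply] <;> ring
  rw [hL, det6 _ _ _ I Complex.I_sq]
  push_cast
  ring

/-- The zero set of the determinant. -/
theorem zeros (x y z : ℝ)
    (h : (x^2+y^2+z^2) * (1 + x^2+y^2+z^2)^2 - 16*x*y*z = 0) :
    (x = 0 ∧ y = 0 ∧ z = 0) ∨ (x^2 = 1/9 ∧ y^2 = 1/9 ∧ z^2 = 1/9 ∧ 0 < x * y * z) := by
  set t := x^2+y^2+z^2 with ht
  have h1 : t * (1 + t)^2 = 16 * (x*y*z) := by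
    have : 1 + t = 1 + x^2+y^2+z^2 := by rw [ht]; ring
    rw [this]; linarith
  have ht0 : 0 ≤ t := by positivity
  rcases ht0.eq_or_lt with h0 | h0
  · left
    have hx := sq_nonneg x
    have hy := sq_nonneg y
    have hz := sq_nonneg z
    refine ⟨?_, ?_, ?_⟩
    · have : x^2 = 0 := by linarith
      exact pow_eq_zero_iff two_ne_zero |>.mp this
    · have : y^2 = 0 := by linarith
      exact pow_eq_zero_iff two_ne_zero |>.mp this
    · have : z^2 = 0 := by linarith
      exact pow_eq_zero_iff two_ne_zero |>.mp this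
  · right
    set a := x^2 with ha
    set b := y^2 with hb
    set c := z^2 with hc
    have ha0 : 0 ≤ a := sq_nonneg x
    have hb0 : 0 ≤ b := sq_nonneg y
    have hc0 : 0 ≤ c := sq_nonneg z
    set e := a*b+b*c+c*a with he
    have he1 : 3 * e ≤ t^2 := by
      rw [he, ht]; nlinarith [sq_nonneg (a-b), sq_nonneg (b-c), sq_nonneg (c-a)]
    have he2 : 3 * (a*b*c) * t ≤ e^2 := by
      rw [he, ht]
      nlinarith [sq_nonneg (a*b-b*c), sq_nonneg (b*c-c*a), sq_nonneg (c*a-a*b)]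
    have he0 : 0 ≤ e := by positivity
    have hp : (x*y*z)^2 = a*b*c := by rw [ha, hb, hc]; ring
    have h2 : t^2 * (1+t)^4 = 256 * (a*b*c) := by
      rw [← hp]
      have : t^2 * (1+t)^4 = (t*(1+t)^2)^2 := by ring
      rw [this, h1]; ring
    have h3 : 9 * e^2 ≤ t^4 := by
      have h33 : (3 * e)^2 ≤ (t^2)^2 := by gcongr
      calc 9 * e^2 = (3 * e)^2 := by ring
        _ ≤ (t^2)^2 := h33
        _ = t^4 := by ring
    have h31 : 27 * (a*b*c) * t ≤ t^4 := by linarith
    have h4 : 27 * (1+t)^4 * t^3 ≤ 256 * t^4 := by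
      have h41 : 27 * (1+t)^4 * t^3 = 27 * t * (t^2 * (1+t)^4) := by ring
      rw [h41, h2]; linarith
    have h5 : 27 * (1+t)^4 ≤ 256 * t := by
      have h6 : 0 < t^3 := by positivity
      have h7 : (27 * (1+t)^4) * t^3 ≤ (256 * t) * t^3 := by linarith
      exact le_of_mul_le_mul_right h7 h6
    have h8 : (3*t-1)^2 * (3*t^2+14*t+27) ≤ 0 := by
      have h81 : (3*t-1)^2 * (3*t^2+14*t+27) = 27 * (1+t)^4 - 256 * t := by ring
      rw [h81]; linarith
    have h9 : (3*t-1)^2 = 0 := by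
      have : 0 < 3*t^2+14*t+27 := by positivity
      have h10 : (3*t-1)^2 ≤ 0 := by
        by_contra hcon
        push Not at hcon
        have := mul_pos hcon this
        linarith
      exact le_antisymm h10 (sq_nonneg _)
    have h11 : t = 1/3 := by
      have := pow_eq_zero_iff two_ne_zero |>.mp h9
      linarith
    have h12 : x*y*z = 1/27 := by rw [h11] at h1; linarith
    have h13 : a*b*c = 1/729 := by rw [← hp, h12]; norm_num
    rw [h11] at he1 he2
    rw [h13] at he2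
    have h14 : e = 1/27 := by nlinarith
    have h15 : (a-b)^2 + (b-c)^2 + (c-a)^2 = 0 := by
      have h16 : a^2+b^2+c^2 = t^2 - 2*e := by rw [ht, he]; ring
      rw [h11, h14] at h16
      have h17 : (a-b)^2 + (b-c)^2 + (c-a)^2 = 2*(a^2+b^2+c^2) - 2*e := by rw [he]; ring
      rw [h17, h16, h14]; norm_num
    have hab : a - b = 0 := by
      have : (a-b)^2 = 0 := by nlinarith [sq_nonneg (a-b), sq_nonneg (b-c), sq_nonneg (c-a)]
      exact pow_eq_zero_iff two_ne_zero |>.mp this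
    have hbc : b - c = 0 := by
      have : (b-c)^2 = 0 := by nlinarith [sq_nonneg (a-b), sq_nonneg (b-c), sq_nonneg (c-a)]
      exact pow_eq_zero_iff two_ne_zero |>.mp this
    refine ⟨by linarith, by linarith, by linarith, ?_⟩
    rw [h12]; norm_num

/-- The five points. -/
noncomputable def pts : Fin 5 → (Fin 3 → ℝ) :=
  ![![0, 0, 0], ![1/3, 1/3, 1/3], ![1/3, -1/3, -1/3], ![-1/3, 1/3, -1/3], ![-1/3, -1/3, 1/3]]

theorem pts_inj : Function.Injective pts := by
  intro i j h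
  have h0 := congrFun h 0
  have h1 := congrFun h 1
  have h2 := congrFun h 2
  fin_cases i <;> fin_cases j <;> first | rfl | (exfalso; simp [pts] at h0 h1 h2; try linarith)

theorem spectrum_eq : cliffordSpectrum pauli A₀ = Set.range pts := by
  ext lam
  have hdet : lam ∈ cliffordSpectrum pauli A₀ ↔
      ((lam 0)^2+(lam 1)^2+(lam 2)^2) * (1 + (lam 0)^2+(lam 1)^2+(lam 2)^2)^2 -
        16*(lam 0)*(lam 1)*(lam 2) = 0 := by
    show ¬ IsUnit (localizer pauli A₀ lam) ↔ _
    rw [Matrix.isUnit_iff_isUnit_det, det_localizer, isUnit_iff_ne_zero, not_not]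
    constructor
    · intro h
      have : (-(((lam 0)^2+(lam 1)^2+(lam 2)^2) * (1 + (lam 0)^2+(lam 1)^2+(lam 2)^2)^2 -
        16*(lam 0)*(lam 1)*(lam 2)) : ℝ) = 0 := by exact_mod_cast h
      linarith
    · intro h
      rw [h]; simp
  rw [hdet]
  constructor
  · intro h
    rcases zeros _ _ _ h with ⟨h0, h1, h2⟩ | ⟨h0, h1, h2, h3⟩
    · refine ⟨0, ?_⟩
      ext i; fin_cases i <;> simp [pts, h0, h1, h2]
    · have key : ∀ x : ℝ, x^2 = 1/9 → x = 1/3 ∨ x = -1/3 := by
        intro x hx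
        have : (x - 1/3) * (x + 1/3) = 0 := by nlinarith
        rcases mul_eq_zero.mp this with h | h
        · left; linarith
        · right; linarith
      rcases key _ h0 with a | a <;> rcases key _ h1 with b | b <;> rcases key _ h2 with c | c
      · exact ⟨1, by ext i; fin_cases i <;> simp [pts, a, b, c]⟩
      · rw [a, b, c] at h3; norm_num at h3
      · rw [a, b, c] at h3; norm_num at h3
      · exact ⟨2, by ext i; fin_cases i <;> simp [pts, a, b, c]⟩
      · rw [a, b, c] at h3; norm_num at h3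
      · exact ⟨3, by ext i; fin_cases i <;> simp [pts, a, b, c]⟩
      · exact ⟨4, by ext i; fin_cases i <;> simp [pts, a, b, c]⟩
      · rw [a, b, c] at h3; norm_num at h3
  · rintro ⟨i, rfl⟩
    fin_cases i <;> simp [pts] <;> norm_num

/-- There are three Hermitian (indeed real symmetric) `3 × 3` matrices whose Clifford spectrum,
with respect to an irreducible Clifford representation, is finite and has five elements. -/
theorem result : ∃ (n d k : ℕ) (γ : Fin d → Matrix (Fin k) (Fin k) ℂ)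
    (A : Fin d → Matrix (Fin n) (Fin n) ℂ), n = 3 ∧ d = 3 ∧ IsIrredCliffordRep γ ∧
    (∀ j, (A j).IsHermitian) ∧ (cliffordSpectrum γ A).Finite ∧ (cliffordSpectrum γ A).ncard = 5 := by
  refine ⟨3, 3, 2, pauli, A₀, rfl, rfl, pauli_irred, A₀_herm, ?_, ?_⟩
  · rw [spectrum_eq]; exact Set.finite_range _
  · rw [spectrum_eq, ← Set.image_univ, Set.ncard_image_of_injective _ pts_inj, Set.ncard_univ]
    simp

end Pool.Agent.Results.MP_fa5fea_an.FivePoints
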